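import Mathlib

set_option autoImplicit false

open Finset

namespace Pool.Agent.V11300.PPC

/-- number of integers in an interval -/
theorem icc_card_le {a b : ℝ} (hab : a ≤ b) : ((Icc ⌈a⌉ ⌊b⌋).card : ℝ) ≤ b - a + 1 := by
  rw [Int.card_Icc]
  have h1 := Int.floor_le b
  have h2 := Int.le_ceil a
  rcases le_or_gt 0 (⌊b⌋ + 1 - ⌈a⌉) with h | h
  · have h3 : (((⌊b⌋ + 1 - ⌈a⌉).toNat : ℤ) : ℝ) = ((⌊b⌋ + 1 - ⌈a⌉ : ℤ) : ℝ) := by
      rw [Int.toNat_of_nonneg h]
    have h4 : (((⌊b⌋ + 1 - ⌈a⌉).toNat : ℕ) : ℝ) = ((⌊b⌋ + 1 - ⌈a⌉ : ℤ) : ℝ) := by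
      rw [← h3]; norm_cast
    rw [h4]
    push_cast
    linarith
  · rw [Int.toNat_of_nonpos h.le]
    push_cast
    linarith

/-- the first coordinates of the boxes near the hyperplanes -/
theorem line_count {R X : ℕ} {g : ℤ} {t w : ℝ} (hR : 0 < R) (hg : 1 ≤ g) (hgX : g ≤ X) (hw : 0 ≤ w)
    (hw2 : w ≤ 1 / 2) (T : Finset ℤ) (hT : ∀ b ∈ T, 0 ≤ b ∧ b < R ∧
      ∃ z : ℤ, |(g : ℝ) * b + t - R * z| ≤ R * w) : (T.card : ℝ) ≤ 6 * w * R + 3 * X := by
  have hR' : (0 : ℝ) < R := by exact_mod_cast hR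
  have hg' : (1 : ℝ) ≤ g := by exact_mod_cast hg
  have hgX' : (g : ℝ) ≤ X := by exact_mod_cast hgX
  set Z : Finset ℤ := Icc ⌈t / R - w⌉ ⌊t / R + g + w⌋ with hZ
  have hZc : (Z.card : ℝ) ≤ g + 2 := by
    have := icc_card_le (a := t / R - w) (b := t / R + g + w) (by linarith)
    linarith
  have hsub : T ⊆ Z.biUnion (fun z => Icc ⌈(R * z - t - R * w) / g⌉ ⌊(R * z - t + R * w) / g⌋) := by
    intro b hb
    obtain ⟨h0, h1, z, hz⟩ := hT b hb
    rw [abs_le] at hz
    have h0' : (0 : ℝ) ≤ b := by exact_mod_cast h0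
    have h1' : (b : ℝ) ≤ R := by exact_mod_cast h1.le
    rw [mem_biUnion]
    refine ⟨z, ?_, ?_⟩
    · rw [hZ, mem_Icc, Int.ceil_le, Int.le_floor]
      constructor
      · rw [sub_le_iff_le_add, div_le_iff₀ hR']
        nlinarith
      · have h2 : (z : ℝ) * R ≤ t + g * R + w * R := by nlinarith
        have h3 : (z : ℝ) ≤ (t + g * R + w * R) / R := by rw [le_div_iff₀ hR']; exact h2
        have h4 : (t + g * R + w * R) / R = t / R + g + w := by field_simp
        linarith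
    · rw [mem_Icc, Int.ceil_le, Int.le_floor]
      constructor
      · rw [div_le_iff₀ (by linarith)]
        nlinarith
      · rw [le_div_iff₀ (by linarith)]
        nlinarith
  have h1 : (T.card : ℝ) ≤ ∑ z ∈ Z, ((Icc ⌈(R * z - t - R * w) / g⌉ ⌊(R * z - t + R * w) / g⌋).card : ℝ) := by
    exact_mod_cast le_trans (card_le_card hsub) card_biUnion_le
  have h2 : ∀ z ∈ Z, ((Icc ⌈(R * z - t - R * w) / g⌉ ⌊(R * z - t + R * w) / g⌋).card : ℝ) ≤
      2 * R * w / g + 1 := by
    intro z _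
    have h3 : (R * z - t - R * w) / g ≤ (R * z - t + R * w) / g := by
      apply div_le_div_of_nonneg_right _ (by linarith)
      nlinarith
    have h4 := icc_card_le h3
    have h5 : (R * z - t + R * w) / g - (R * z - t - R * w) / g = 2 * R * w / g := by
      rw [← sub_div]; congr 1; ring
    linarith
  have h3 : (T.card : ℝ) ≤ (g + 2) * (2 * R * w / g + 1) := by
    calc (T.card : ℝ) ≤ _ := h1
      _ ≤ ∑ z ∈ Z, (2 * R * w / g + 1) := sum_le_sum h2
      _ = Z.card * (2 * R * w / g + 1) := by rw [sum_const, nsmul_eq_mul]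
      _ ≤ (g + 2) * (2 * R * w / g + 1) := mul_le_mul_of_nonneg_right hZc (by positivity)
  have h4 : (g + 2) * (2 * R * w / g + 1) = 2 * R * w + 4 * R * w / g + g + 2 := by
    field_simp
    ring
  have h5 : 4 * R * w / g ≤ 4 * R * w := div_le_self (by positivity) hg'
  rw [h4] at h3
  linarith

/-- the number of boxes near the hyperplanes -/
theorem box_count {e R X : ℕ} {h : Fin (e + 1) → ℤ} {w : ℝ} (hR : 0 < R)
    (hh : ∀ i, 1 ≤ h i ∧ h i ≤ X) (hw : 0 ≤ w) (hw2 : w ≤ 1 / 2) (V : Finset (Fin (e + 1) → ℤ))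
    (hV : ∀ b ∈ V, (∀ i, 0 ≤ b i ∧ b i < R) ∧
      ∃ z : ℤ, |(∑ i, (h i : ℝ) * b i) - R * z| ≤ R * w) :
    (V.card : ℝ) ≤ (6 * w * R + 3 * X) * (R : ℝ) ^ e := by
  set T : Finset (Fin e → ℤ) := Fintype.piFinset (fun _ => Ico (0 : ℤ) R) with hT
  have hTc : (T.card : ℝ) = (R : ℝ) ^ e := by
    rw [hT, Fintype.card_piFinset]
    simp
  set v : ℝ := 6 * w * R + 3 * X with hv
  have hv0 : 0 ≤ v := by positivity
  have h1 : V.card ≤ ⌊v⌋₊ * T.card := by
    apply Finset.card_le_mul_card_image_of_maps_to (f := fun b : Fin (e + 1) → ℤ => Fin.tail b)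
    · intro b hb
      rw [hT, Fintype.mem_piFinset]
      intro i
      rw [mem_Ico]
      exact (hV b hb).1 i.succ
    · intro c _
      apply Nat.le_floor
      set W : Finset (Fin (e + 1) → ℤ) := V.filter (fun b => Fin.tail b = c) with hW
      have h2 : (W.image (fun b => b 0)).card = W.card := by
        apply card_image_of_injOn
        intro b hb b' hb' h3
        rw [mem_coe, hW, mem_filter] at hb hb'
        rw [← Fin.cons_self_tail b, ← Fin.cons_self_tail b', hb.2, hb'.2]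
        simp only at h3
        rw [h3]
      rw [← h2]
      apply line_count (t := ∑ i : Fin e, (h i.succ : ℝ) * c i) hR (hh 0).1 (hh 0).2 hw hw2
      intro b hb
      rw [mem_image] at hb
      obtain ⟨a, ha, rfl⟩ := hb
      rw [hW, mem_filter] at ha
      obtain ⟨h3, z, hz⟩ := hV a ha.1
      refine ⟨(h3 0).1, (h3 0).2, z, ?_⟩
      rw [Fin.sum_univ_succ] at hz
      have h4 : ∀ i : Fin e, a i.succ = c i := fun i => congrFun ha.2 i
      simp only [h4] at hz
      exact hz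
  calc (V.card : ℝ) ≤ (⌊v⌋₊ : ℝ) * T.card := by exact_mod_cast h1
    _ ≤ v * T.card := mul_le_mul_of_nonneg_right (Nat.floor_le hv0) (by positivity)
    _ = v * (R : ℝ) ^ e := by rw [hTc]

/-- ordered pairs in a common fibre -/
theorem pair_count {ι β : Type*} [DecidableEq ι] [DecidableEq β] (S : Finset ι) (B : ι → β) (V : Finset β)
    (hV : ∀ n ∈ S, B n ∈ V) :
    S.card ^ 2 ≤ V.card * (((S ×ˢ S).filter (fun p => p.1 ≠ p.2 ∧ B p.1 = B p.2)).card + S.card) := by
  have h1 : ∑ b ∈ V, (S.filter (fun n => B n = b)).card = S.card :=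
    (Finset.card_eq_sum_card_fiberwise (s := S) (t := V) (f := B)
      (fun n hn => hV n (mem_coe.1 hn))).symm
  have h2 := sq_sum_le_card_mul_sum_sq (s := V) (f := fun b => (S.filter (fun n => B n = b)).card)
  rw [h1] at h2
  refine le_trans h2 (Nat.mul_le_mul_left _ ?_)
  have h3 : ∑ b ∈ V, (S.filter (fun n => B n = b)).card ^ 2 =
      ((S ×ˢ S).filter (fun p => B p.1 = B p.2)).card := by
    rw [Finset.card_eq_sum_card_fiberwise (s := (S ×ˢ S).filter (fun p => B p.1 = B p.2))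
      (t := V) (f := fun p => B p.1)]
    · apply sum_congr rfl
      intro b _
      rw [sq, ← card_product]
      congr 1
      ext p
      simp only [mem_product, mem_filter]
      constructor
      · rintro ⟨⟨h4, h5⟩, h6, h7⟩
        exact ⟨⟨⟨h4, h6⟩, by rw [h5, h7]⟩, h5⟩
      · rintro ⟨⟨⟨h4, h6⟩, h7⟩, h5⟩
        exact ⟨⟨h4, h5⟩, h6, by rw [← h7, h5]⟩
    · intro p hp
      rw [mem_coe, mem_filter, mem_product] at hp
      exact hV _ hp.1.1
  rw [h3]
  have h4 : (S ×ˢ S).filter (fun p => B p.1 = B p.2) ⊆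
      (S ×ˢ S).filter (fun p => p.1 ≠ p.2 ∧ B p.1 = B p.2) ∪ S.image (fun n => (n, n)) := by
    intro p hp
    rw [mem_filter] at hp
    rw [mem_union, mem_filter, mem_image]
    by_cases h5 : p.1 = p.2
    · right
      exact ⟨p.1, (mem_product.1 hp.1).1, Prod.ext rfl h5⟩
    · left
      exact ⟨hp.1, h5, hp.2⟩
  refine le_trans (card_le_card h4) (le_trans (card_union_le _ _) ?_)
  have h5 := Finset.card_image_le (s := S) (f := fun n => (n, n))
  omega

end Pool.Agent.V11300.PPC
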