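import Mathlib

set_option autoImplicit false

open Filter Real

namespace Pool.Agent.V11300.PPC

/-- Chebyshev's bound for the `N`-th prime -/
theorem nth_le {N : ℕ} (hN : 2 ≤ N) : (Nat.nth Nat.Prime (N - 1) : ℝ) ≤ 29 * N * Real.log N := by
  set L := Real.log N with hL
  have hN' : (2 : ℝ) ≤ N := by exact_mod_cast hN
  have hL2 : Real.log 2 ≤ L := Real.log_le_log (by norm_num) hN'
  have hl2 : 0.6931471803 < Real.log 2 := Real.log_two_gt_d9
  have hLN : L ≤ N - 1 := Real.log_le_sub_one_of_pos (by linarith)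
  set m := ⌈28 * N * L⌉₊ with hm
  have hm1 : 28 * N * L ≤ m := Nat.le_ceil _
  have hm2 : (m : ℝ) < 28 * N * L + 1 := Nat.ceil_lt_add_one (by positivity)
  have hNL : (1 : ℝ) ≤ N * L := by nlinarith
  have hm3 : (m : ℝ) ≤ 29 * N * L := by nlinarith
  have hmpos : (1 : ℝ) < m := by nlinarith
  have h8 : (m : ℝ) + 1 ≤ (N : ℝ) ^ 8 := by
    have h1 : (m : ℝ) + 1 ≤ 28 * (N * (N - 1)) + 2 := by nlinarith
    have h2 : (64 : ℝ) ≤ (N : ℝ) ^ 6 := by
      calc (64 : ℝ) = 2 ^ 6 := by norm_num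
        _ ≤ (N : ℝ) ^ 6 := pow_le_pow_left₀ (by norm_num) hN' 6
    calc (m : ℝ) + 1 ≤ 28 * (N * (N - 1)) + 2 := h1
      _ ≤ 64 * (N : ℝ) ^ 2 := by nlinarith
      _ ≤ (N : ℝ) ^ 6 * (N : ℝ) ^ 2 := mul_le_mul_of_nonneg_right h2 (by positivity)
      _ = (N : ℝ) ^ 8 := by ring
  have hlogm1 : Real.log (m + 1) ≤ 8 * L := by
    calc Real.log (m + 1) ≤ Real.log ((N : ℝ) ^ 8) := Real.log_le_log (by linarith) h8
      _ = 8 * L := by rw [Real.log_pow, hL]; norm_num
  have hlogm : Real.log m ≤ 8 * L :=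
    le_trans (Real.log_le_log (by linarith) (by linarith)) hlogm1
  have hlogpos : 0 < Real.log m := Real.log_pos hmpos
  have hpi := Chebyshev.pi_ge m
  have hkey : (N : ℝ) ≤ (m * Real.log 2 - Real.log (m + 1)) / Real.log m := by
    rw [le_div_iff₀ hlogpos]
    have h1 : (N : ℝ) * Real.log m ≤ N * (8 * L) := mul_le_mul_of_nonneg_left hlogm (by linarith)
    have h2 : 28 * N * L * Real.log 2 ≤ m * Real.log 2 := mul_le_mul_of_nonneg_right hm1 (by linarith)
    have h3 : 28 * N * L * 0.6931471803 ≤ 28 * N * L * Real.log 2 :=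
      mul_le_mul_of_nonneg_left hl2.le (by nlinarith)
    have h4 : 8 * L ≤ 8 * (N * L) / 2 := by nlinarith
    nlinarith
  have h5 : N ≤ Nat.primeCounting m := by exact_mod_cast le_trans hkey hpi
  have h6 : Nat.nth Nat.Prime (N - 1) < m + 1 := by
    apply Nat.nth_lt_of_lt_count
    have : Nat.count Nat.Prime (m + 1) = Nat.primeCounting m := rfl
    rw [this]
    omega
  have h7 : (Nat.nth Nat.Prime (N - 1) : ℝ) ≤ m := by exact_mod_cast Nat.lt_succ_iff.1 h6
  linarith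

end Pool.Agent.V11300.PPC
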