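import Mathlib

set_option autoImplicit false

open Finset

namespace Pool.Agent.V11300.PPC

/-- coprime pairs of positive integers up to `X` with first component larger than `X'` -/
def cop (X X' : ℕ) : Finset (ℕ × ℕ) :=
  ((Icc 1 X) ×ˢ (Icc 1 X)).filter (fun p => X' < p.1 ∧ Nat.Coprime p.1 p.2)

theorem mem_cop {X X' : ℕ} {p : ℕ × ℕ} : p ∈ cop X X' ↔
    1 ≤ p.1 ∧ p.1 ≤ X ∧ 1 ≤ p.2 ∧ p.2 ≤ X ∧ X' < p.1 ∧ Nat.Coprime p.1 p.2 := by
  unfold cop
  rw [mem_filter, mem_product, mem_Icc, mem_Icc]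
  tauto

theorem sum_inv_sq (X : ℕ) (hX : 2 ≤ X) :
    ∑ k ∈ Icc 2 X, (1 : ℝ) / (k : ℝ) ^ 2 ≤ 3 / 4 - 1 / X := by
  induction X, hX using Nat.le_induction with
  | base => norm_num
  | succ X hX ih =>
    rw [Finset.sum_Icc_succ_top (by omega)]
    have hX0 : (0 : ℝ) < X := by
      have : 0 < X := by omega
      exact_mod_cast this
    have h1 : (1 : ℝ) / ((X + 1 : ℕ) : ℝ) ^ 2 ≤ 1 / X - 1 / ((X + 1 : ℕ) : ℝ) := by
      push_cast
      rw [div_sub_div _ _ hX0.ne' (by positivity), div_le_div_iff₀ (by positivity) (by positivity)]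
      nlinarith
    linarith

theorem cop_card (X X' : ℕ) : (X : ℝ) ^ 2 / 4 - X' * X ≤ ((cop X X').card : ℝ) := by
  rcases Nat.lt_or_ge X 2 with h | h
  · rcases Nat.eq_zero_or_pos X with h0 | h0
    · subst h0; simp
    · have hX : X = 1 := by omega
      subst hX
      rcases Nat.eq_zero_or_pos X' with h1 | h1
      · subst h1
        have : (cop 1 0) = {(1, 1)} := by decide
        rw [this]
        norm_num
      · have h2 : (1 : ℝ) ≤ X' := by exact_mod_cast h1
        have h3 : (0 : ℝ) ≤ ((cop 1 X').card : ℝ) := Nat.cast_nonneg _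
        push_cast
        linarith
  set T := (Icc 1 X) ×ˢ (Icc 1 X) with hT
  set Bad := (Icc 2 X).biUnion (fun k => ((Icc 1 (X / k)) ×ˢ (Icc 1 (X / k))).image
    (fun p : ℕ × ℕ => (k * p.1, k * p.2))) with hBad
  set Low := (Icc 1 X') ×ˢ (Icc 1 X) with hLow
  have hsub : T ⊆ cop X X' ∪ (Bad ∪ Low) := by
    rintro ⟨a, b⟩ hp
    rw [hT, mem_product, mem_Icc, mem_Icc] at hp
    obtain ⟨⟨ha1, ha2⟩, hb1, hb2⟩ := hp
    simp only at ha1 ha2 hb1 hb2
    rw [mem_union, mem_union]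
    by_cases h1 : a ≤ X'
    · right; right
      rw [hLow, mem_product, mem_Icc, mem_Icc]
      exact ⟨⟨ha1, h1⟩, hb1, hb2⟩
    · by_cases h2 : Nat.Coprime a b
      · left
        rw [mem_cop]
        exact ⟨ha1, ha2, hb1, hb2, by simpa using h1, h2⟩
      · right; left
        rw [hBad, mem_biUnion]
        have hg0 : 0 < Nat.gcd a b := Nat.gcd_pos_of_pos_left _ ha1
        have hg1 : Nat.gcd a b ≠ 1 := h2
        have hga : Nat.gcd a b ≤ a := Nat.gcd_le_left _ ha1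
        refine ⟨Nat.gcd a b, mem_Icc.2 ⟨by omega, by omega⟩, ?_⟩
        rw [mem_image]
        refine ⟨(a / Nat.gcd a b, b / Nat.gcd a b), ?_, ?_⟩
        · rw [mem_product, mem_Icc, mem_Icc]
          refine ⟨⟨?_, Nat.div_le_div_right ha2⟩, ?_, Nat.div_le_div_right hb2⟩
          · exact Nat.div_pos hga hg0
          · exact Nat.div_pos (Nat.gcd_le_right _ hb1) hg0
        · simp only
          rw [Nat.mul_div_cancel' (Nat.gcd_dvd_left a b), Nat.mul_div_cancel' (Nat.gcd_dvd_right a b)]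
  have h1 := (card_le_card hsub).trans (card_union_le _ _)
  have h2 : (Bad ∪ Low).card ≤ Bad.card + Low.card := card_union_le _ _
  have h3 : (Bad.card : ℝ) ≤ 3 / 4 * X ^ 2 := by
    have h4 : Bad.card ≤ ∑ k ∈ Icc 2 X, (X / k) * (X / k) := by
      refine card_biUnion_le.trans (sum_le_sum fun k _ => ?_)
      refine card_image_le.trans ?_
      rw [card_product, Nat.card_Icc]
      simp
    have h5 : (Bad.card : ℝ) ≤ ∑ k ∈ Icc 2 X, (X : ℝ) ^ 2 * (1 / (k : ℝ) ^ 2) := by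
      refine le_trans (by exact_mod_cast h4 : (Bad.card : ℝ) ≤ ((∑ k ∈ Icc 2 X, (X / k) * (X / k) : ℕ) : ℝ)) ?_
      push_cast
      apply sum_le_sum
      intro k hk
      rw [mem_Icc] at hk
      have h6 : ((X / k : ℕ) : ℝ) ≤ (X : ℝ) / k := Nat.cast_div_le
      have h7 : (0 : ℝ) ≤ ((X / k : ℕ) : ℝ) := Nat.cast_nonneg _
      calc ((X / k : ℕ) : ℝ) * ((X / k : ℕ) : ℝ) ≤ ((X : ℝ) / k) * ((X : ℝ) / k) :=
            mul_le_mul h6 h6 h7 (le_trans h7 h6)
        _ = (X : ℝ) ^ 2 * (1 / (k : ℝ) ^ 2) := by ring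
    rw [← mul_sum] at h5
    have h8 := sum_inv_sq X h
    have h9 : (0 : ℝ) ≤ 1 / X := by positivity
    have h10 : (0 : ℝ) ≤ (X : ℝ) ^ 2 := by positivity
    nlinarith
  have h4 : (T.card : ℝ) = (X : ℝ) ^ 2 := by
    rw [hT, card_product, Nat.card_Icc, Nat.add_sub_cancel]
    push_cast
    ring
  have h5 : (Low.card : ℝ) = X' * X := by
    rw [hLow, card_product, Nat.card_Icc, Nat.card_Icc, Nat.add_sub_cancel, Nat.add_sub_cancel]
    push_cast
    ring
  have h6 : (T.card : ℝ) ≤ (cop X X').card + (Bad.card + Low.card) := by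
    have : T.card ≤ (cop X X').card + (Bad.card + Low.card) := by omega
    exact_mod_cast this
  rw [h4, h5] at h6
  linarith

end Pool.Agent.V11300.PPC
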