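import Mathlib

set_option autoImplicit false

open MeasureTheory

namespace Pool.Agent.V11300.PPC

variable {d : ℕ}

/-- the character of the torus with frequency `h` -/
def chr (h : Fin d → ℤ) : (Fin d → UnitAddCircle) →+ UnitAddCircle where
  toFun α := ∑ i, h i • α i
  map_zero' := by simp
  map_add' := by
    intro a b
    simp [smul_add, Finset.sum_add_distrib]

theorem chr_apply (h : Fin d → ℤ) (α : Fin d → UnitAddCircle) : chr h α = ∑ i, h i • α i := rfl

theorem chr_continuous (h : Fin d → ℤ) : Continuous (chr h) := by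
  show Continuous (fun α : Fin d → UnitAddCircle => ∑ i, h i • α i)
  fun_prop

theorem chr_coe (h : Fin d → ℤ) (v : Fin d → ℝ) :
    chr h (fun i => (v i : UnitAddCircle)) = ((∑ i, (h i : ℝ) * v i : ℝ) : UnitAddCircle) := by
  rw [chr_apply]
  have h1 : ∀ s : Finset (Fin d), ((∑ i ∈ s, (h i : ℝ) * v i : ℝ) : UnitAddCircle) =
      ∑ i ∈ s, h i • (v i : UnitAddCircle) := by
    intro s
    induction s using Finset.induction_on with
    | empty => simp
    | insert a s ha ih =>
      rw [Finset.sum_insert ha, Finset.sum_insert ha, AddCircle.coe_add, ih, ← AddCircle.coe_zsmul,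
        zsmul_eq_mul]
  exact (h1 Finset.univ).symm

theorem sum_two {h : Fin d → ℤ} {i k : Fin d} (x y : ℝ) :
    ∑ j, (h j : ℝ) * ((Pi.single i x : Fin d → ℝ) j + (Pi.single k y : Fin d → ℝ) j) =
      h i * x + h k * y := by
  simp_rw [mul_add]
  rw [Finset.sum_add_distrib]
  congr 1
  · rw [Finset.sum_eq_single i]
    · simp
    · intro j _ hj; simp [hj]
    · intro h1; exact absurd (Finset.mem_univ i) h1
  · rw [Finset.sum_eq_single k]
    · simp
    · intro j _ hj; simp [hj]
    · intro h1; exact absurd (Finset.mem_univ k) h1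

/-- the pair of characters -/
def chr2 (h h' : Fin d → ℤ) : (Fin d → UnitAddCircle) →+ UnitAddCircle × UnitAddCircle :=
  (chr h).prod (chr h')

theorem chr2_surj {h h' : Fin d → ℤ} {i k : Fin d} (hD : h i * h' k - h k * h' i ≠ 0) :
    Function.Surjective (chr2 h h') := by
  rintro ⟨s, t⟩
  induction s using QuotientAddGroup.induction_on with
  | H a =>
    induction t using QuotientAddGroup.induction_on with
    | H b =>
      have hD' : (h i : ℝ) * h' k - h k * h' i ≠ 0 := by exact_mod_cast hD
      refine ⟨fun j => (((Pi.single i (((h' k : ℝ) * a - h k * b) / ((h i : ℝ) * h' k - h k * h' i)) :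
        Fin d → ℝ) j + (Pi.single k (((h i : ℝ) * b - h' i * a) / ((h i : ℝ) * h' k - h k * h' i)) :
        Fin d → ℝ) j : ℝ) : UnitAddCircle), ?_⟩
      have e1 := chr_coe h (fun j => (Pi.single i (((h' k : ℝ) * a - h k * b) / ((h i : ℝ) * h' k - h k * h' i)) :
        Fin d → ℝ) j + (Pi.single k (((h i : ℝ) * b - h' i * a) / ((h i : ℝ) * h' k - h k * h' i)) :
        Fin d → ℝ) j)
      have e2 := chr_coe h' (fun j => (Pi.single i (((h' k : ℝ) * a - h k * b) / ((h i : ℝ) * h' k - h k * h' i)) :
        Fin d → ℝ) j + (Pi.single k (((h i : ℝ) * b - h' i * a) / ((h i : ℝ) * h' k - h k * h' i)) :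
        Fin d → ℝ) j)
      rw [sum_two] at e1 e2
      show (_, _) = _
      refine Prod.ext ?_ ?_
      · show chr h _ = _
        rw [e1]
        congr 1
        rw [← mul_div_assoc, ← mul_div_assoc, ← add_div, div_eq_iff hD']
        ring
      · show chr h' _ = _
        rw [e2]
        congr 1
        rw [← mul_div_assoc, ← mul_div_assoc, ← add_div, div_eq_iff hD']
        ring

theorem chr2_measurePreserving {h h' : Fin d → ℤ} {i k : Fin d} (hD : h i * h' k - h k * h' i ≠ 0) :
    MeasurePreserving (chr2 h h') volume volume := by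
  have i1 : (volume : Measure (UnitAddCircle × UnitAddCircle)).IsAddHaarMeasure := by
    rw [Measure.volume_eq_prod]
    infer_instance
  have i2 : (volume : Measure (Fin d → UnitAddCircle)).IsAddHaarMeasure := by
    rw [volume_pi]
    infer_instance
  apply AddMonoidHom.measurePreserving
  · exact (chr_continuous h).prodMk (chr_continuous h')
  · exact chr2_surj hD
  · rw [Measure.volume_eq_prod, ← Set.univ_prod_univ, Measure.prod_prod, volume_pi, Measure.pi_univ]
    simp

/-- the set of points at which the character is small -/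
def small (h : Fin d → ℤ) (ψ : ℝ) : Set (Fin d → UnitAddCircle) :=
  chr h ⁻¹' Metric.closedBall 0 ψ

theorem small_measurable (h : Fin d → ℤ) (ψ : ℝ) : MeasurableSet (small h ψ) :=
  (chr_continuous h).measurable Metric.isClosed_closedBall.measurableSet

theorem real_ball {ψ : ℝ} (h1 : ψ ≤ 1 / 2) (h0 : 0 ≤ ψ) :
    (volume : Measure UnitAddCircle).real (Metric.closedBall 0 ψ) = 2 * ψ := by
  rw [Measure.real, AddCircle.volume_closedBall, min_eq_right (by linarith), ENNReal.toReal_ofReal (by linarith)]

theorem small_inter {h h' : Fin d → ℤ} {i k : Fin d} (hD : h i * h' k - h k * h' i ≠ 0) {ψ ψ' : ℝ} :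
    volume.real (small h ψ ∩ small h' ψ') = (volume : Measure UnitAddCircle).real (Metric.closedBall 0 ψ) *
      (volume : Measure UnitAddCircle).real (Metric.closedBall 0 ψ') := by
  have h1 := (chr2_measurePreserving hD).measure_preimage
    (s := Metric.closedBall (0 : UnitAddCircle) ψ ×ˢ Metric.closedBall (0 : UnitAddCircle) ψ')
    ((Metric.isClosed_closedBall.measurableSet.prod Metric.isClosed_closedBall.measurableSet).nullMeasurableSet)
  have h2 : chr2 h h' ⁻¹' (Metric.closedBall (0 : UnitAddCircle) ψ ×ˢ Metric.closedBall (0 : UnitAddCircle) ψ') =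
      small h ψ ∩ small h' ψ' := rfl
  rw [h2, Measure.volume_eq_prod, Measure.prod_prod] at h1
  rw [Measure.real, h1, ENNReal.toReal_mul]
  rfl

theorem small_real {h h' : Fin d → ℤ} {i k : Fin d} (hD : h i * h' k - h k * h' i ≠ 0) {ψ : ℝ}
    (h1 : ψ ≤ 1 / 2) (h0 : 0 ≤ ψ) : volume.real (small h ψ) = 2 * ψ := by
  have h2 := small_inter hD (ψ := ψ) (ψ' := 1 / 2)
  have h3 : small h' (1 / 2) = Set.univ := by
    unfold small
    have : Metric.closedBall (0 : UnitAddCircle) (1 / 2) = Set.univ := by
      rw [AddCircle.closedBall_eq_univ_of_half_period_le _ (by norm_num)]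
      simp
    rw [this, Set.preimage_univ]
  rw [h3, Set.inter_univ, real_ball h1 h0, real_ball le_rfl (by norm_num)] at h2
  rw [h2]
  ring

end Pool.Agent.V11300.PPC
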