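import Pool.Agent.V11300.PPC.Second
import Pool.Agent.V11300.PPC.Torus
import Pool.Agent.V11300.PPC.Coprime

set_option autoImplicit false

open MeasureTheory Filter Finset

namespace Pool.Agent.V11300.PPC

/-- the vector with the given components -/
def vec {e : ℕ} (p : (ℕ × ℕ) × (Fin e → ℕ)) : Fin (e + 2) → ℤ :=
  Fin.cons (p.1.1 : ℤ) (Fin.cons (p.1.2 : ℤ) (fun i => (p.2 i : ℤ)))

theorem vec_zero {e : ℕ} (p : (ℕ × ℕ) × (Fin e → ℕ)) : vec p 0 = p.1.1 := rfl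

theorem vec_one {e : ℕ} (p : (ℕ × ℕ) × (Fin e → ℕ)) : vec p 1 = p.1.2 := rfl

theorem vec_succ {e : ℕ} (p : (ℕ × ℕ) × (Fin e → ℕ)) (i : Fin e) : vec p i.succ.succ = p.2 i := rfl

/-- the vectors of scale `j` -/
def fam (e j : ℕ) : Finset ((ℕ × ℕ) × (Fin e → ℕ)) :=
  cop (16 ^ (j + 1)) (16 ^ j) ×ˢ Fintype.piFinset (fun _ => Icc 1 (16 ^ (j + 1)))

theorem mem_fam {e j : ℕ} {p : (ℕ × ℕ) × (Fin e → ℕ)} (hp : p ∈ fam e j) :
    (1 ≤ p.1.1 ∧ p.1.1 ≤ 16 ^ (j + 1) ∧ 1 ≤ p.1.2 ∧ p.1.2 ≤ 16 ^ (j + 1) ∧ 16 ^ j < p.1.1 ∧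
      Nat.Coprime p.1.1 p.1.2) ∧ ∀ i, 1 ≤ p.2 i ∧ p.2 i ≤ 16 ^ (j + 1) := by
  unfold fam at hp
  rw [mem_product, mem_cop, Fintype.mem_piFinset] at hp
  exact ⟨hp.1, fun i => mem_Icc.1 (hp.2 i)⟩

theorem vec_bounds {e j : ℕ} {p : (ℕ × ℕ) × (Fin e → ℕ)} (hp : p ∈ fam e j) (i : Fin (e + 2)) :
    1 ≤ vec p i ∧ vec p i ≤ 16 ^ (j + 1) := by
  obtain ⟨⟨h1, h2, h3, h4, -, -⟩, h5⟩ := mem_fam hp
  refine Fin.cases ?_ (fun i => Fin.cases ?_ (fun i => ?_) i) i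
  · rw [vec_zero]
    exact ⟨by exact_mod_cast h1, by exact_mod_cast h2⟩
  · show 1 ≤ vec p 1 ∧ vec p 1 ≤ 16 ^ (j + 1)
    rw [vec_one]
    exact ⟨by exact_mod_cast h3, by exact_mod_cast h4⟩
  · rw [vec_succ]
    exact ⟨by exact_mod_cast (h5 i).1, by exact_mod_cast (h5 i).2⟩

theorem fam_card (e j : ℕ) : 3 / 16 * ((16 : ℝ) ^ (j + 1)) ^ (e + 2) ≤ ((fam e j).card : ℝ) := by
  unfold fam
  rw [card_product, Fintype.card_piFinset]
  have h1 := cop_card (16 ^ (j + 1)) (16 ^ j)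
  push_cast at h1 ⊢
  simp only [Nat.card_Icc, add_tsub_cancel_right, prod_const, card_univ, Fintype.card_fin]
  push_cast
  set x : ℝ := (16 : ℝ) ^ j with hx
  have hx0 : 0 ≤ x := by positivity
  have e1 : (16 : ℝ) ^ (j + 1) = 16 * x := by rw [pow_succ, hx]; ring
  rw [e1] at h1 ⊢
  have h2 : 3 / 16 * (16 * x) ^ 2 ≤ ((cop (16 ^ (j + 1)) (16 ^ j)).card : ℝ) := by nlinarith
  calc 3 / 16 * (16 * x) ^ (e + 2) = (3 / 16 * (16 * x) ^ 2) * (16 * x) ^ e := by ring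
    _ ≤ ((cop (16 ^ (j + 1)) (16 ^ j)).card : ℝ) * (16 * x) ^ e :=
        mul_le_mul_of_nonneg_right h2 (by positivity)

theorem minor {e j j' : ℕ} {p p' : (ℕ × ℕ) × (Fin e → ℕ)} (hp : p ∈ fam e j) (hp' : p' ∈ fam e j')
    (hne : p ≠ p') : ∃ i k : Fin (e + 2), vec p i * vec p' k - vec p k * vec p' i ≠ 0 := by
  obtain ⟨⟨h1, -, h3, -, -, hc⟩, -⟩ := mem_fam hp
  obtain ⟨⟨h1', -, h3', -, -, hc'⟩, -⟩ := mem_fam hp'
  by_cases h : p.1 = p'.1
  · have h2 : p.2 ≠ p'.2 := fun h5 => hne (Prod.ext h h5)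
    obtain ⟨i, hi⟩ := Function.ne_iff.1 h2
    refine ⟨0, i.succ.succ, ?_⟩
    rw [vec_zero, vec_zero, vec_succ, vec_succ, h]
    intro h6
    have h7 : (p'.1.1 : ℤ) * ((p'.2 i : ℤ) - p.2 i) = 0 := by linarith
    rcases mul_eq_zero.1 h7 with h8 | h8
    · have : p'.1.1 = 0 := by exact_mod_cast h8
      omega
    · have : (p'.2 i : ℤ) = p.2 i := by linarith
      exact hi (by exact_mod_cast this.symm)
  · refine ⟨0, 1, ?_⟩
    rw [vec_zero, vec_zero, vec_one, vec_one]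
    intro h6
    have h7 : p.1.1 * p'.1.2 = p.1.2 * p'.1.1 := by
      have : (p.1.1 : ℤ) * p'.1.2 = p.1.2 * p'.1.1 := by linarith
      exact_mod_cast this
    have h8 : p.1.1 ∣ p'.1.1 := by
      have : p.1.1 ∣ p.1.2 * p'.1.1 := ⟨p'.1.2, h7.symm⟩
      exact hc.dvd_of_dvd_mul_left this
    have h9 : p'.1.1 ∣ p.1.1 := by
      have : p'.1.1 ∣ p'.1.2 * p.1.1 := ⟨p.1.2, by rw [mul_comm, h7, mul_comm]⟩
      exact hc'.dvd_of_dvd_mul_left this
    have h10 := Nat.dvd_antisymm h8 h9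
    have h11 : p.1.2 = p'.1.2 := by
      rw [h10, mul_comm p.1.2] at h7
      exact (Nat.eq_of_mul_eq_mul_left (by omega) h7).symm
    exact h (Prod.ext h10 h11)

theorem scale_unique {e j j' : ℕ} {p : (ℕ × ℕ) × (Fin e → ℕ)} (hp : p ∈ fam e j) (hp' : p ∈ fam e j') :
    j = j' := by
  obtain ⟨⟨-, h2, -, -, h5, -⟩, -⟩ := mem_fam hp
  obtain ⟨⟨-, h2', -, -, h5', -⟩, -⟩ := mem_fam hp'
  have h3 : 16 ^ j < 16 ^ (j' + 1) := lt_of_lt_of_le h5 h2'
  have h4 : 16 ^ j' < 16 ^ (j + 1) := lt_of_lt_of_le h5' h2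
  have h6 := (Nat.pow_lt_pow_iff_right (by norm_num)).1 h3
  have h7 := (Nat.pow_lt_pow_iff_right (by norm_num)).1 h4
  omega

/-- the radius at scale `j` -/
noncomputable def rad (e : ℕ) (c : ℝ) (j : ℕ) : ℝ := c / (((16 : ℝ) ^ (j + 1)) ^ (e + 2) * ((j : ℝ) + 1))

theorem rad_nonneg (e : ℕ) {c : ℝ} (hc : 0 ≤ c) (j : ℕ) : 0 ≤ rad e c j := by unfold rad; positivity

theorem rad_le (e : ℕ) {c : ℝ} (hc1 : c ≤ 1 / 2) (j : ℕ) : rad e c j ≤ 1 / 2 := by
  unfold rad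
  have h1 : (1 : ℝ) ≤ ((16 : ℝ) ^ (j + 1)) ^ (e + 2) * ((j : ℝ) + 1) := by
    have h2 : (1 : ℝ) ≤ ((16 : ℝ) ^ (j + 1)) ^ (e + 2) := one_le_pow₀ (one_le_pow₀ (by norm_num))
    have h3 : (1 : ℝ) ≤ (j : ℝ) + 1 := by
      have : (0 : ℝ) ≤ j := Nat.cast_nonneg j
      linarith
    calc (1 : ℝ) = 1 * 1 := by ring
      _ ≤ _ := mul_le_mul h2 h3 zero_le_one (by linarith)
  rw [div_le_iff₀ (by linarith)]
  nlinarith

theorem small_one {e j : ℕ} {p : (ℕ × ℕ) × (Fin e → ℕ)} (hp : p ∈ fam e j) {ψ : ℝ}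
    (h0 : 0 ≤ ψ) (h1 : ψ ≤ 1 / 2) : volume.real (small (vec p) ψ) = 2 * ψ := by
  apply small_real (h' := Pi.single 1 1) (i := 0) (k := 1) _ h1 h0
  have h2 := (vec_bounds hp 0).1
  simp
  omega

theorem torus_ae (e : ℕ) {c : ℝ} (hc : 0 < c) (hc1 : c ≤ 1 / 2) :
    ∀ᵐ α : Fin (e + 2) → UnitAddCircle, ∀ J : ℕ, ∃ j, J ≤ j ∧ ∃ p ∈ fam e j,
      α ∈ small (vec p) (rad e c j) := by
  rw [ae_all_iff]
  intro J
  set Z : Set (Fin (e + 2) → UnitAddCircle) := {α | ¬ ∃ j, J ≤ j ∧ ∃ p ∈ fam e j,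
      α ∈ small (vec p) (rad e c j)} with hZ
  have hprob : IsProbabilityMeasure (volume : Measure (Fin (e + 2) → UnitAddCircle)) := by
    refine ⟨?_⟩
    rw [volume_pi, Measure.pi_univ]
    simp
  have key : ∀ n : ℕ, (∑ j ∈ Finset.range n, 3 / 8 * c * (1 / ((j + J : ℕ) + 1 : ℝ))) * volume.real Z ≤ 1 := by
    intro n
    set S : Finset (Σ _ : ℕ, (ℕ × ℕ) × (Fin e → ℕ)) := (Finset.range n).sigma (fun j => fam e (j + J)) with hS
    have h1 := cheb (volume : Measure (Fin (e + 2) → UnitAddCircle)) S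
      (fun q => small (vec q.2) (rad e c (q.1 + J))) (fun q _ => small_measurable _ _) (by
        intro q hq q' hq' hne
        rw [hS, Finset.mem_sigma] at hq hq'
        have hne2 : q.2 ≠ q'.2 := by
          intro h2
          apply hne
          have h3 := hq.2
          rw [h2] at h3
          have h4 := scale_unique h3 hq'.2
          have h5 : q.1 = q'.1 := by omega
          exact Sigma.ext h5 (heq_of_eq h2)
        obtain ⟨i, k, hik⟩ := minor hq.2 hq'.2 hne2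
        rw [small_inter hik, small_one hq.2 (rad_nonneg e hc.le _) (rad_le e hc1 _),
          small_one hq'.2 (rad_nonneg e hc.le _) (rad_le e hc1 _),
          real_ball (rad_le e hc1 _) (rad_nonneg e hc.le _),
          real_ball (rad_le e hc1 _) (rad_nonneg e hc.le _)])
    have h2 : volume.real Z ≤ volume.real (⋂ q ∈ S, (small (vec q.2) (rad e c (q.1 + J)))ᶜ) := by
      refine measureReal_mono ?_ (measure_ne_top _ _)
      intro α hα
      rw [Set.mem_iInter₂]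
      intro q hq hq2
      rw [hS, Finset.mem_sigma] at hq
      exact hα ⟨q.1 + J, by omega, q.2, hq.2, hq2⟩
    have h3 : ∑ j ∈ Finset.range n, 3 / 8 * c * (1 / ((j + J : ℕ) + 1 : ℝ)) ≤
        ∑ q ∈ S, volume.real (small (vec q.2) (rad e c (q.1 + J))) := by
      rw [hS, Finset.sum_sigma]
      apply Finset.sum_le_sum
      intro j _
      have h8 : ∑ p ∈ fam e (j + J), volume.real (small (vec p) (rad e c (j + J))) =
          ∑ p ∈ fam e (j + J), 2 * rad e c (j + J) :=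
        Finset.sum_congr rfl (fun p hp => small_one hp (rad_nonneg e hc.le _) (rad_le e hc1 _))
      show _ ≤ ∑ p ∈ fam e (j + J), volume.real (small (vec p) (rad e c (j + J)))
      rw [h8, Finset.sum_const, nsmul_eq_mul]
      have h4 := fam_card e (j + J)
      unfold rad
      have h5 : (0 : ℝ) < ((16 : ℝ) ^ (j + J + 1)) ^ (e + 2) := by positivity
      have h6 : (0 : ℝ) < ((j + J : ℕ) : ℝ) + 1 := by positivity
      have h7 : 3 / 8 * c * (1 / (((j + J : ℕ) : ℝ) + 1)) =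
          (3 / 16 * ((16 : ℝ) ^ (j + J + 1)) ^ (e + 2)) *
          (2 * (c / (((16 : ℝ) ^ (j + J + 1)) ^ (e + 2) * (((j + J : ℕ) : ℝ) + 1)))) := by
        field_simp
        ring
      rw [h7]
      exact mul_le_mul_of_nonneg_right h4 (by positivity)
    have h4 : 0 ≤ volume.real (⋂ q ∈ S, (small (vec q.2) (rad e c (q.1 + J)))ᶜ) := measureReal_nonneg
    have h5 : 0 ≤ ∑ q ∈ S, volume.real (small (vec q.2) (rad e c (q.1 + J))) :=
      Finset.sum_nonneg (fun _ _ => measureReal_nonneg)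
    calc _ ≤ (∑ q ∈ S, volume.real (small (vec q.2) (rad e c (q.1 + J)))) *
          volume.real (⋂ q ∈ S, (small (vec q.2) (rad e c (q.1 + J)))ᶜ) :=
          mul_le_mul h3 h2 measureReal_nonneg h5
      _ ≤ 1 := h1
  have hzero : volume.real Z = 0 := by
    by_contra hne
    have hpos : 0 < volume.real Z := lt_of_le_of_ne measureReal_nonneg (Ne.symm hne)
    have hdiv : Tendsto (fun n : ℕ => ∑ j ∈ Finset.range n, (1 : ℝ) / ((j : ℝ) + 1)) atTop atTop :=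
      Real.tendsto_sum_range_one_div_nat_succ_atTop
    obtain ⟨n, hn⟩ := (hdiv.eventually_gt_atTop ((∑ j ∈ Finset.range J, (1 : ℝ) / ((j : ℝ) + 1)) +
      8 / (3 * c * volume.real Z))).exists_forall_of_atTop
    have h1 := hn (n + J) (by omega)
    have h2 := key n
    rw [← Finset.mul_sum] at h2
    rw [add_comm n J, Finset.sum_range_add] at h1
    have h3 : ∑ x ∈ Finset.range n, (1 : ℝ) / (((J + x : ℕ) : ℝ) + 1) =
        ∑ j ∈ Finset.range n, (1 : ℝ) / (((j + J : ℕ) : ℝ) + 1) := by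
      apply Finset.sum_congr rfl
      intro x _
      rw [add_comm J x]
    rw [h3] at h1
    have h4 : 8 / (3 * c * volume.real Z) < ∑ j ∈ Finset.range n, (1 : ℝ) / (((j + J : ℕ) : ℝ) + 1) := by
      linarith
    rw [div_lt_iff₀ (by positivity)] at h4
    linarith
  rw [ae_iff]
  have : volume Z = 0 := by
    rwa [measureReal_eq_zero_iff] at hzero
  exact this

end Pool.Agent.V11300.PPC
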