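import Mathlib

set_option autoImplicit false

open MeasureTheory

namespace Pool.Agent.V11300.PPC

/-- For pairwise independent events the probability that none of them occurs is at most the inverse of the
sum of their probabilities. -/
theorem cheb {Ω ι : Type*} [MeasurableSpace Ω] [DecidableEq ι] (μ : Measure Ω) [IsProbabilityMeasure μ]
    (F : Finset ι) (A : ι → Set Ω) (hA : ∀ i ∈ F, MeasurableSet (A i))
    (hind : ∀ i ∈ F, ∀ j ∈ F, i ≠ j → μ.real (A i ∩ A j) = μ.real (A i) * μ.real (A j)) :
    (∑ i ∈ F, μ.real (A i)) * μ.real (⋂ i ∈ F, (A i)ᶜ) ≤ 1 := by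
  classical
  set m := ∑ i ∈ F, μ.real (A i) with hm
  have hm0 : 0 ≤ m := Finset.sum_nonneg (fun i _ => measureReal_nonneg)
  rcases hm0.eq_or_lt with h0 | h0
  · rw [← h0, zero_mul]; exact zero_le_one
  set X : Ω → ℝ := fun ω => ∑ i ∈ F, (A i).indicator (fun _ => (1 : ℝ)) ω with hX
  set E := ⋂ i ∈ F, (A i)ᶜ with hE
  have hEm : MeasurableSet E := Finset.measurableSet_biInter F (fun i hi => (hA i hi).compl)
  have hint : ∀ i ∈ F, Integrable ((A i).indicator (fun _ => (1 : ℝ))) μ := fun i hi =>
    (integrable_const 1).indicator (hA i hi)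
  have hint2 : ∀ i ∈ F, ∀ j ∈ F, Integrable (fun ω => (A i).indicator (fun _ => (1 : ℝ)) ω *
      (A j).indicator (fun _ => (1 : ℝ)) ω) μ := by
    intro i hi j hj
    have e : (fun ω => (A i).indicator (fun _ => (1 : ℝ)) ω * (A j).indicator (fun _ => (1 : ℝ)) ω) =
        (A i ∩ A j).indicator (fun _ => (1 : ℝ)) := by
      funext ω
      by_cases h1 : ω ∈ A i <;> by_cases h2 : ω ∈ A j <;> simp [h1, h2]
    rw [e]
    exact (integrable_const 1).indicator ((hA i hi).inter (hA j hj))
  have e1 : ∫ ω, X ω ∂μ = m := by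
    rw [hX, integral_finsetSum F hint, hm]
    apply Finset.sum_congr rfl
    intro i hi
    rw [integral_indicator_const _ (hA i hi)]
    simp
  have e2 : ∫ ω, X ω * X ω ∂μ ≤ m + m * m := by
    have h1 : (fun ω => X ω * X ω) = fun ω => ∑ i ∈ F, ∑ j ∈ F,
        (A i).indicator (fun _ => (1 : ℝ)) ω * (A j).indicator (fun _ => (1 : ℝ)) ω := by
      funext ω
      rw [hX, Finset.sum_mul_sum]
    rw [h1, integral_finsetSum F (fun i hi => integrable_finsetSum F (fun j hj => hint2 i hi j hj))]
    have h2 : ∀ i ∈ F, ∫ ω, ∑ j ∈ F, (A i).indicator (fun _ => (1 : ℝ)) ω *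
        (A j).indicator (fun _ => (1 : ℝ)) ω ∂μ ≤ μ.real (A i) + μ.real (A i) * m := by
      intro i hi
      rw [integral_finsetSum F (fun j hj => hint2 i hi j hj)]
      have h3 : ∀ j ∈ F, ∫ ω, (A i).indicator (fun _ => (1 : ℝ)) ω *
          (A j).indicator (fun _ => (1 : ℝ)) ω ∂μ ≤
          (if i = j then μ.real (A i) else 0) + μ.real (A i) * μ.real (A j) := by
        intro j hj
        have e : (fun ω => (A i).indicator (fun _ => (1 : ℝ)) ω * (A j).indicator (fun _ => (1 : ℝ)) ω) =
            (A i ∩ A j).indicator (fun _ => (1 : ℝ)) := by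
          funext ω
          by_cases h1 : ω ∈ A i <;> by_cases h2 : ω ∈ A j <;> simp [h1, h2]
        rw [e, integral_indicator_const _ ((hA i hi).inter (hA j hj))]
        simp only [smul_eq_mul, mul_one]
        by_cases hij : i = j
        · subst hij
          rw [if_pos rfl, Set.inter_self]
          have : 0 ≤ μ.real (A i) * μ.real (A i) := mul_nonneg measureReal_nonneg measureReal_nonneg
          linarith
        · rw [if_neg hij, hind i hi j hj hij, zero_add]
      refine le_trans (Finset.sum_le_sum h3) ?_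
      rw [Finset.sum_add_distrib, Finset.sum_ite_eq F i, if_pos hi, ← Finset.mul_sum]
    refine le_trans (Finset.sum_le_sum h2) ?_
    rw [Finset.sum_add_distrib, ← Finset.sum_mul]
  have hXint : Integrable X μ := integrable_finsetSum F hint
  have hX2int : Integrable (fun ω => X ω * X ω) μ := by
    have h1 : (fun ω => X ω * X ω) = fun ω => ∑ i ∈ F, ∑ j ∈ F,
        (A i).indicator (fun _ => (1 : ℝ)) ω * (A j).indicator (fun _ => (1 : ℝ)) ω := by
      funext ω
      rw [hX, Finset.sum_mul_sum]
    rw [h1]
    exact integrable_finsetSum F (fun i hi => integrable_finsetSum F (fun j hj => hint2 i hi j hj))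
  have hcm : Integrable (fun ω => 2 * m * X ω) μ := hXint.const_mul _
  have hA1 : Integrable (fun ω => X ω * X ω - 2 * m * X ω) μ := hX2int.sub hcm
  have hA2 : Integrable (fun ω => X ω * X ω - 2 * m * X ω + m * m) μ := hA1.add (integrable_const _)
  have e3 : ∫ ω, (X ω * X ω - 2 * m * X ω + m * m) ∂μ ≤ m := by
    rw [integral_add hA1 (integrable_const _),
      integral_sub hX2int hcm, integral_const_mul, e1, integral_const]
    simp only [probReal_univ, smul_eq_mul, one_mul]
    linarith
  have e4 : m * m * μ.real E ≤ ∫ ω, (X ω * X ω - 2 * m * X ω + m * m) ∂μ := by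
    have h1 : ∫ ω, E.indicator (fun _ => m * m) ω ∂μ = m * m * μ.real E := by
      rw [integral_indicator_const _ hEm, smul_eq_mul, mul_comm]
    rw [← h1]
    apply integral_mono ((integrable_const _).indicator hEm) hA2
    intro ω
    show E.indicator (fun _ => m * m) ω ≤ X ω * X ω - 2 * m * X ω + m * m
    by_cases hω : ω ∈ E
    · have hX0 : X ω = 0 := by
        rw [hX]
        apply Finset.sum_eq_zero
        intro i hi
        have : ω ∉ A i := by
          have := Set.mem_iInter₂.1 hω i hi
          exact this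
        simp [this]
      rw [Set.indicator_of_mem hω, hX0]
      simp
    · rw [Set.indicator_of_notMem hω]
      nlinarith [sq_nonneg (X ω - m)]
  have e5 : m * m * μ.real E ≤ m := le_trans e4 e3
  have e6 : m * (m * μ.real E) ≤ m * 1 := by linarith
  exact le_of_mul_le_mul_left e6 h0

end Pool.Agent.V11300.PPC
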