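import Pool.Agent.V11300.PPC.Metric

set_option autoImplicit false

open MeasureTheory Filter

namespace Pool.Agent.V11300.PPC

/-- a property which holds almost everywhere on the torus holds almost everywhere on Euclidean space -/
theorem ae_of_torus {d : ℕ} {P : (Fin d → UnitAddCircle) → Prop}
    (h : ∀ᵐ β : Fin d → UnitAddCircle, P β) :
    ∀ᵐ α : Fin d → ℝ, P (fun i => (α i : UnitAddCircle)) := by
  have hc : (⋃ a : Fin d → ℤ, Set.univ.pi (fun i => Set.Ioc (a i : ℝ) (a i + 1))) = Set.univ := by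
    rw [Set.eq_univ_iff_forall]
    intro x
    rw [Set.mem_iUnion]
    refine ⟨fun i => ⌈x i⌉ - 1, ?_⟩
    rw [Set.mem_univ_pi]
    intro i
    push_cast
    constructor
    · have := Int.ceil_lt_add_one (x i)
      linarith
    · have := Int.le_ceil (x i)
      linarith
  rw [← Measure.restrict_univ (μ := volume), ← hc, ae_restrict_iUnion_iff]
  intro a
  have h1 : MeasurePreserving (fun (α : Fin d → ℝ) (i : Fin d) => (α i : UnitAddCircle))
      (volume.restrict (Set.univ.pi (fun i => Set.Ioc (a i : ℝ) (a i + 1)))) volume := by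
    rw [volume_pi, volume_pi, Measure.restrict_pi_pi]
    exact measurePreserving_pi _ _ (fun i => UnitAddCircle.measurePreserving_mk (a i))
  exact h1.quasiMeasurePreserving.ae h

theorem small_iff {d : ℕ} (h : Fin d → ℤ) (ψ : ℝ) (α : Fin d → ℝ) :
    (fun i => (α i : UnitAddCircle)) ∈ small h ψ ↔
      |(∑ i, (h i : ℝ) * α i) - round (∑ i, (h i : ℝ) * α i)| ≤ ψ := by
  unfold small
  rw [Set.mem_preimage, chr_coe, mem_closedBall_zero_iff, UnitAddCircle.norm_eq]

/-- the metric input: almost every point has infinitely many good approximations -/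
theorem real_ae (e : ℕ) {c : ℝ} (hc : 0 < c) (hc1 : c ≤ 1 / 2) :
    ∀ᵐ α : Fin (e + 2) → ℝ, ∀ J : ℕ, ∃ j, J ≤ j ∧ ∃ h : Fin (e + 2) → ℤ, ∃ m : ℤ,
      (∀ i, 1 ≤ h i ∧ h i ≤ 16 ^ (j + 1)) ∧
      |(∑ i, (h i : ℝ) * α i) - m| ≤ rad e c j := by
  filter_upwards [ae_of_torus (torus_ae e hc hc1)] with α hα J
  obtain ⟨j, hj, p, hp, hs⟩ := hα J
  rw [small_iff] at hs
  exact ⟨j, hj, vec p, _, fun i => vec_bounds hp i, hs⟩

end Pool.Agent.V11300.PPC
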